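import Pool.Agent.U409.OA.Stm3

set_option autoImplicit false

/-! Project OA, package II: the determinant formula for the partition function without toggles. -/

namespace Pool.Agent.U358.OA

open Finset Pool.Agent.U409.OA

lemma G_two (z x y : ℂ) : G z [x, y] = z - 2 := by
  simp [G, Z, row, k0, cw, List.replicate]

lemma Vp_cons {n : ℕ} (x : ℂ) (u : Fin n → ℂ) :
    Vp (Fin.cons x u : Fin (n + 1) → ℂ) = (∏ k, (x - u k) * (x * u k - 1)) * Vp u := by
  unfold Vp
  rw [Fin.prod_univ_succ]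
  simp only [Fin.cons_zero, Fin.cons_succ, Fin.prod_Ioi_zero, Fin.prod_Ioi_succ]

lemma D_cons (M : ℕ) {n : ℕ} (u : Fin n → ℂ) : ∃ c : Fin (n + 1) → ℂ, ∀ x : ℂ,
    D M (Fin.cons x u : Fin (n + 1) → ℂ) = ∑ j : Fin (n + 1), c j * gl M (ex j) x := by
  refine ⟨fun j => (-1) ^ (j : ℕ) *
    Matrix.det (Matrix.of fun i j' : Fin n => gl M (ex ((j.succAbove j' : Fin (n + 1)) : ℕ)) (u i)),
    fun x => ?_⟩
  unfold D
  rw [Matrix.det_succ_row_zero]
  refine Finset.sum_congr rfl fun j _ => ?_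
  have h1 : (Matrix.of fun i j : Fin (n + 1) =>
      gl M (ex j) ((Fin.cons x u : Fin (n + 1) → ℂ) i)).submatrix Fin.succ j.succAbove =
      Matrix.of fun i j' : Fin n => gl M (ex ((j.succAbove j' : Fin (n + 1)) : ℕ)) (u i) := by
    ext a b
    simp [Matrix.submatrix_apply, Matrix.of_apply, Fin.cons_succ]
  rw [h1]
  simp only [Matrix.of_apply, Fin.cons_zero]
  ring

open Polynomial in
noncomputable def glP (M l : ℕ) : Polynomial ℂ :=
  X ^ (3 * M - 1 - l) * ∑ k ∈ range l, X ^ (2 * k)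

lemma glP_eval (M l : ℕ) (x : ℂ) : (glP M l).eval x = gl M l x := by
  unfold glP gl
  simp [Polynomial.eval_finsetSum]

lemma glP_deg (M l : ℕ) (hl : 1 ≤ l) (hl2 : l + 1 ≤ 3 * M) : (glP M l).natDegree ≤ 6 * M - 4 := by
  unfold glP
  refine (Polynomial.natDegree_mul_le).trans ?_
  have h1 : (∑ k ∈ range l, (Polynomial.X : Polynomial ℂ) ^ (2 * k)).natDegree ≤ 2 * (l - 1) := by
    refine Polynomial.natDegree_sum_le_of_forall_le _ _ fun k hk => ?_
    rw [Polynomial.natDegree_X_pow]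
    have := Finset.mem_range.1 hk
    omega
  rw [Polynomial.natDegree_X_pow]
  omega

lemma gl_inv (M l : ℕ) (hl : 1 ≤ l) (hl2 : l + 1 ≤ 3 * M) (y : ℂ) (hy : y ≠ 0) :
    gl M l y⁻¹ * y ^ (6 * M - 4) = gl M l y := by
  unfold gl
  obtain ⟨a, ha⟩ : ∃ a, a = 3 * M - 1 - l := ⟨_, rfl⟩
  have h1 : 6 * M - 4 = a + a + 2 * (l - 1) := by omega
  rw [h1, ← ha, pow_add, pow_add]
  have h2 : (∑ k ∈ range l, y⁻¹ ^ (2 * k)) * y ^ (2 * (l - 1)) = ∑ k ∈ range l, y ^ (2 * k) := by
    rw [Finset.sum_mul, ← Finset.sum_range_reflect]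
    refine Finset.sum_congr rfl fun k hk => ?_
    have hk' := Finset.mem_range.1 hk
    have h3 : 2 * (l - 1) = 2 * (l - 1 - k) + 2 * k := by omega
    have h4 : y⁻¹ ^ (2 * (l - 1 - k)) * y ^ (2 * (l - 1 - k)) = 1 := by
      rw [← mul_pow, inv_mul_cancel₀ hy, one_pow]
    calc y⁻¹ ^ (2 * (l - 1 - k)) * y ^ (2 * (l - 1))
        = y⁻¹ ^ (2 * (l - 1 - k)) * (y ^ (2 * (l - 1 - k)) * y ^ (2 * k)) := by
          rw [← pow_add, ← h3]
      _ = y ^ (2 * k) := by rw [← mul_assoc, h4, one_mul]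
  have h5 : y⁻¹ ^ a * y ^ a = 1 := by rw [← mul_pow, inv_mul_cancel₀ hy, one_pow]
  calc y⁻¹ ^ a * (∑ k ∈ range l, y⁻¹ ^ (2 * k)) * (y ^ a * y ^ a * y ^ (2 * (l - 1)))
      = (y⁻¹ ^ a * y ^ a) * (y ^ a * ((∑ k ∈ range l, y⁻¹ ^ (2 * k)) * y ^ (2 * (l - 1)))) := by
        ring
    _ = _ := by rw [h5, h2, one_mul]

lemma ex_pos (j : ℕ) : 1 ≤ ex j := by unfold ex; omega

lemma ex_lt (M : ℕ) (j : ℕ) (hj : j < 2 * M) : ex j + 1 ≤ 3 * M := by unfold ex; omega

/-- the determinant vanishes if two parameters coincide -/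
lemma D_eq_zero (M : ℕ) {n : ℕ} (u : Fin n → ℂ) (j : Fin n) :
    D M (Fin.cons (u j) u : Fin (n + 1) → ℂ) = 0 := by
  unfold D
  refine Matrix.det_zero_of_row_eq (Fin.succ_ne_zero j).symm ?_
  ext b
  simp [Matrix.of_apply]

lemma D_eq_zero' (M : ℕ) {n : ℕ} (hn : n + 1 = 2 * M) (u : Fin n → ℂ) (j : Fin n)
    (hj : u j ≠ 0) : D M (Fin.cons (u j)⁻¹ u : Fin (n + 1) → ℂ) = 0 := by
  obtain ⟨c, hc⟩ := D_cons M u
  have h1 : D M (Fin.cons (u j)⁻¹ u : Fin (n + 1) → ℂ) * u j ^ (6 * M - 4) =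
      D M (Fin.cons (u j) u : Fin (n + 1) → ℂ) := by
    rw [hc, hc, Finset.sum_mul]
    refine Finset.sum_congr rfl fun i _ => ?_
    rw [mul_assoc, gl_inv M (ex i) (ex_pos i) (ex_lt M i (by have := i.2; omega)) (u j) hj]
  rw [D_eq_zero] at h1
  exact (mul_eq_zero.1 h1).resolve_right (pow_ne_zero _ hj)

lemma I2_perm (hP : S_PERM) (hSG : S_SGN) (z : ℂ) (hz : z ^ 2 = z - 1) (M : ℕ) {n : ℕ}
    (w : Fin n → ℂ) (σ : Equiv.Perm (Fin n)) (h : I2 z M (w ∘ σ)) : I2 z M w := by
  unfold I2 at h ⊢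
  rw [(hP z hz _ _ (Equiv.Perm.ofFn_comp_perm σ w)).1, (hSG M n w σ).1, (hSG M n w σ).2] at h
  have h1 : ((Equiv.Perm.sign σ : ℤ) : ℂ) ≠ 0 := by
    rcases Int.units_eq_one_or (Equiv.Perm.sign σ) with h2 | h2 <;> rw [h2] <;> simp
  apply mul_left_cancel₀ h1
  linear_combination h

/-- moving a parameter to the front -/
lemma I2_front (hP : S_PERM) (hSG : S_SGN) (z : ℂ) (hz : z ^ 2 = z - 1) (M : ℕ) {n : ℕ}
    (x : ℂ) (u : Fin (n + 1) → ℂ) (j : Fin (n + 1))
    (h : I2 z M (Fin.cons x (Fin.cons (u j) (fun i => u (j.succAbove i)) : Fin (n + 1) → ℂ) :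
      Fin (n + 2) → ℂ)) : I2 z M (Fin.cons x u : Fin (n + 2) → ℂ) := by
  refine I2_perm hP hSG z hz M _ (Equiv.Perm.decomposeFin.symm (0, j.cycleRange.symm)) ?_
  have h1 : (Fin.cons x u : Fin (n + 2) → ℂ) ∘
      (Equiv.Perm.decomposeFin.symm (0, j.cycleRange.symm)) =
      (Fin.cons x (Fin.cons (u j) (fun i => u (j.succAbove i)) : Fin (n + 1) → ℂ) :
      Fin (n + 2) → ℂ) := by
    funext i
    refine Fin.cases ?_ (fun i => ?_) i
    · simp
    · rw [Function.comp_apply, Equiv.Perm.decomposeFin_symm_apply_succ, Equiv.swap_self,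
        Equiv.refl_apply, Fin.cons_succ, Fin.cons_succ]
      refine Fin.cases ?_ (fun i => ?_) i
      · rw [Fin.cycleRange_symm_zero, Fin.cons_zero]
      · rw [Fin.cycleRange_symm_succ, Fin.cons_succ]
  rw [h1]
  exact h

lemma D_two (x y : ℂ) : D 1 (Fin.cons x (fun _ => y) : Fin 2 → ℂ) = (x - y) * (1 - x * y) := by
  unfold D
  rw [Matrix.det_fin_two]
  simp [gl, ex, Finset.sum_range_succ]
  ring

lemma z_im (z : ℂ) (hz : z ^ 2 = z - 1) : z.im ≠ 0 := by
  intro h
  have h1 := congrArg Complex.re hz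
  have h2 : (z ^ 2).re = z.re ^ 2 - z.im ^ 2 := by
    rw [sq, Complex.mul_re]; ring
  rw [h2, h, Complex.sub_re, Complex.one_re] at h1
  nlinarith [sq_nonneg (z.re - 1 / 2)]

theorem t_II (hP : S_PERM) (hD : S_DEG) (hSG : S_SGN) (hIIC : S_IIC) : S_II := by
  intro z hz m
  induction m with
  | zero =>
    intro v hv1 hvi x
    have h1 : (List.ofFn fun i : Fin (2 * 0 + 1) => (v i : ℂ)) = [(v 0 : ℂ)] := by
      simp
    have h2 : (fun i : Fin (2 * 0 + 1) => (v i : ℂ)) = fun _ : Fin 1 => (v 0 : ℂ) := by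
      funext i
      have h0 : i = 0 := by
        apply Fin.ext
        have := i.2
        simp only [Fin.val_zero]
        omega
      rw [h0]
    rw [h1, G_two, h2]
    have h3 := Vp_cons x (fun _ : Fin 1 => (v 0 : ℂ))
    have h4 := D_two x (v 0 : ℂ)
    have h5 : Vp (fun _ : Fin 1 => (v 0 : ℂ)) = 1 := by
      unfold Vp
      simp
    rw [h5, Fin.prod_univ_one, mul_one] at h3
    change (z - 2) * Vp (Fin.cons x (fun _ : Fin 1 => (v 0 : ℂ)) : Fin (1 + 1) → ℂ) =
      (-(z - 2)) ^ (0 + 1) * z ^ (2 * (0 + 1) * 0) *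
        D 1 (Fin.cons x (fun _ => (v 0 : ℂ)) : Fin 2 → ℂ)
    rw [h3, h4]
    ring
  | succ m ih =>
    intro v hv1 hvi x
    obtain ⟨u, hu⟩ : ∃ u : Fin (2 * (m + 1) + 1) → ℂ, u = fun i => (v i : ℂ) := ⟨_, rfl⟩
    rw [← hu]
    have hu' : ∀ i, u i = (v i : ℂ) := fun i => by rw [hu]
    have hv0 : ∀ i, (v i : ℝ) ≠ 0 := fun i => by have := hv1 i; positivity
    have hu0 : ∀ i, u i ≠ 0 := fun i => by rw [hu']; exact_mod_cast hv0 i
    obtain ⟨H, hHdeg, hH⟩ := (hD z (List.ofFn u)).1 (by simp [List.ofFn_succ])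
    rw [List.length_ofFn] at hHdeg
    obtain ⟨c, hc⟩ := D_cons (m + 1 + 1) u
    obtain ⟨K, hK⟩ : ∃ K : ℂ, K = (-(z - 2)) ^ (m + 1 + 1) * z ^ (2 * (m + 1 + 1) * (m + 1)) :=
      ⟨_, rfl⟩
    rw [← hK]
    obtain ⟨P1, hP1def⟩ : ∃ P1 : Polynomial ℂ, P1 = H * (∏ k, (Polynomial.X - Polynomial.C (u k)) *
      (Polynomial.X * Polynomial.C (u k) - 1)) * Polynomial.C (Vp u) := ⟨_, rfl⟩
    obtain ⟨P2, hP2def⟩ : ∃ P2 : Polynomial ℂ, P2 = Polynomial.C K *
      ∑ j : Fin (2 * (m + 1) + 1 + 1), Polynomial.C (c j) * glP (m + 1 + 1) (ex j) := ⟨_, rfl⟩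
    have hP1 : ∀ x, P1.eval x = G z (x :: List.ofFn u) *
        Vp (Fin.cons x u : Fin (2 * (m + 1) + 1 + 1) → ℂ) := by
      intro x
      rw [hP1def, Vp_cons, hH]
      simp only [Polynomial.eval_mul, Polynomial.eval_prod, Polynomial.eval_sub,
        Polynomial.eval_X, Polynomial.eval_C, Polynomial.eval_one]
      ring
    have hP2 : ∀ x, P2.eval x = K *
        D (m + 1 + 1) (Fin.cons x u : Fin (2 * (m + 1) + 1 + 1) → ℂ) := by
      intro x
      rw [hP2def, hc]
      simp only [Polynomial.eval_mul, Polynomial.eval_finsetSum, Polynomial.eval_C, glP_eval]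
    have hdeg1 : P1.natDegree ≤ 6 * m + 8 := by
      rw [hP1def]
      refine (Polynomial.natDegree_mul_C_le _ _).trans ?_
      refine Polynomial.natDegree_mul_le.trans ?_
      have h1 : (∏ k, (Polynomial.X - Polynomial.C (u k)) *
          (Polynomial.X * Polynomial.C (u k) - 1)).natDegree ≤
          ∑ k : Fin (2 * (m + 1) + 1), 2 := by
        refine (Polynomial.natDegree_prod_le _ _).trans (Finset.sum_le_sum fun k _ => ?_)
        refine Polynomial.natDegree_mul_le.trans ?_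
        have h2 : (Polynomial.X - Polynomial.C (u k)).natDegree ≤ 1 :=
          (Polynomial.natDegree_X_sub_C_le _)
        have h3 : (Polynomial.X * Polynomial.C (u k) - 1).natDegree ≤ 1 := by
          refine (Polynomial.natDegree_sub_le _ _).trans ?_
          rw [Polynomial.natDegree_one]
          refine max_le ?_ (by norm_num)
          exact (Polynomial.natDegree_mul_C_le _ _).trans Polynomial.natDegree_X_le
        omega
      rw [Finset.sum_const, Finset.card_univ, Fintype.card_fin, smul_eq_mul] at h1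
      omega
    have hdeg2 : P2.natDegree ≤ 6 * m + 8 := by
      rw [hP2def]
      refine (Polynomial.natDegree_C_mul_le _ _).trans ?_
      refine Polynomial.natDegree_sum_le_of_forall_le _ _ fun j _ => ?_
      refine (Polynomial.natDegree_C_mul_le _ _).trans ?_
      have h1 := glP_deg (m + 1 + 1) (ex j) (ex_pos j)
        (ex_lt _ _ (by have := j.2; omega))
      omega
    have hzim := z_im z hz
    have hz2im : (z ^ 2).im = z.im := by
      rw [hz, Complex.sub_im, Complex.one_im, sub_zero]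
    have key : P1 = P2 := by
      refine Polynomial.eq_of_natDegree_lt_card_of_eval_eq P1 P2
        (ι := Fin (2 * (m + 1) + 1) ⊕ (Fin (2 * (m + 1) + 1) ⊕ Fin (2 * (m + 1) + 1)))
        (f := Sum.elim (fun j => ((v j : ℝ) : ℂ)) (Sum.elim (fun j => (((v j)⁻¹ : ℝ) : ℂ))
          (fun j => z ^ 2 * (((v j)⁻¹ : ℝ) : ℂ)))) ?_ ?_ ?_
      · -- injectivity
        have hinv : ∀ j, (v j)⁻¹ < 1 := fun j => inv_lt_one_of_one_lt₀ (hv1 j)
        have hA : ∀ (a : ℝ) (j : Fin (2 * (m + 1) + 1)),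
            (a : ℂ) ≠ z ^ 2 * (((v j)⁻¹ : ℝ) : ℂ) := by
          intro a j h
          have h1 := congrArg Complex.im h
          rw [Complex.im_mul_ofReal, Complex.ofReal_im, hz2im] at h1
          exact (mul_ne_zero hzim (inv_ne_zero (hv0 j))) h1.symm
        have hz20 : z ^ 2 ≠ 0 := by
          intro h
          rw [h, Complex.zero_im] at hz2im
          exact hzim hz2im.symm
        rintro (i | i | i) (j | j | j) h <;> simp only [Sum.elim_inl, Sum.elim_inr] at h
        · rw [hvi (Complex.ofReal_injective h)]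
        · have h1 := Complex.ofReal_injective h
          have h2 := hinv j
          have h3 := hv1 i
          linarith
        · exact absurd h (hA _ _)
        · have h1 := Complex.ofReal_injective h
          have h2 := hinv i
          have h3 := hv1 j
          linarith
        · rw [hvi (inv_injective (Complex.ofReal_injective h))]
        · exact absurd h (hA _ _)
        · exact absurd h.symm (hA _ _)
        · exact absurd h.symm (hA _ _)
        · rw [hvi (inv_injective (Complex.ofReal_injective (mul_left_cancel₀ hz20 h)))]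
      · -- evaluation
        rintro (j | j | j) <;> simp only [Sum.elim_inl, Sum.elim_inr]
        · rw [hP1, hP2, ← hu' j, D_eq_zero, Vp_cons, mul_zero]
          rw [Finset.prod_eq_zero (Finset.mem_univ j) (by rw [sub_self, zero_mul]), zero_mul,
            mul_zero]
        · rw [hP1, hP2, Complex.ofReal_inv, ← hu' j,
            D_eq_zero' (m + 1 + 1) (by ring) u j (hu0 j), Vp_cons, mul_zero]
          rw [Finset.prod_eq_zero (Finset.mem_univ j)
            (by rw [inv_mul_cancel₀ (hu0 j), sub_self, mul_zero]), zero_mul, mul_zero]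
        · rw [hP1, hP2, Complex.ofReal_inv, ← hu' j]
          have hxy : z ^ 2 * (u j)⁻¹ * u j = z ^ 2 := by
            rw [mul_assoc, inv_mul_cancel₀ (hu0 j), mul_one]
          obtain ⟨v', hv'⟩ : ∃ v' : Fin (2 * (m + 1)) → ℝ, v' = fun i => v (j.succAbove i) :=
            ⟨_, rfl⟩
          have hv'1 : ∀ i, 1 < v' i := fun i => by rw [hv']; exact hv1 _
          have hv'i : Function.Injective v' := by
            rw [hv']
            exact hvi.comp Fin.succAbove_right_injective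
          have h1 := ih (fun i => v' (Fin.succ (n := 2 * m + 1) i)) (fun i => hv'1 _)
            (fun a b hab => Fin.succ_injective _ (hv'i hab)) ((v' 0 : ℝ) : ℂ)
          have h2 : I2 z (m + 1) (fun i : Fin (2 * m + 1 + 1) => ((v' i : ℝ) : ℂ)) := by
            unfold I2
            have h3 : (Fin.cons ((v' 0 : ℝ) : ℂ)
                (fun i : Fin (2 * m + 1) => ((v' (Fin.succ i) : ℝ) : ℂ)) : Fin (2 * m + 1 + 1) → ℂ) =
                fun i : Fin (2 * m + 1 + 1) => ((v' i : ℝ) : ℂ) := by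
              funext i
              refine Fin.cases ?_ (fun i => ?_) i
              · rw [Fin.cons_zero]
              · rw [Fin.cons_succ]
            rw [List.ofFn_succ, Nat.add_sub_cancel]
            rw [← h3]
            exact h1
          have h3 := hIIC z hz (m + 1) (z ^ 2 * (u j)⁻¹) (u j)
            (fun i => ((v' i : ℝ) : ℂ)) hxy h2
          have h4 : (fun i : Fin (2 * (m + 1)) => ((v' i : ℝ) : ℂ)) =
              fun i => u (j.succAbove i) := by
            funext i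
            rw [hv', hu']
          rw [h4] at h3
          have h5 := I2_front hP hSG z hz (m + 1 + 1) (z ^ 2 * (u j)⁻¹) u j h3
          unfold I2 at h5
          rw [List.ofFn_succ, Fin.cons_zero, Nat.add_sub_cancel, ← hK] at h5
          simp only [Fin.cons_succ] at h5
          exact h5
      · rw [Fintype.card_sum, Fintype.card_sum, Fintype.card_fin]
        have := max_le hdeg1 hdeg2
        omega
    have h1 := hP1 x
    rw [key, hP2] at h1
    exact h1.symm

end Pool.Agent.U358.OA
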